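import Mathlib

namespace Pool.Agent.Results.MP_96dc1b_co.Hubs

open Finset

variable {V : Type} [Fintype V] [DecidableEq V]

/-- `G` has a tree decomposition all of whose bags have at most `w + 1` vertices. -/
def HasTD (G : SimpleGraph V) (w : ℕ) : Prop :=
  ∃ (I : Type) (_ : Fintype I) (T : SimpleGraph I) (B : I → Finset V), T.IsTree ∧
    (∀ v, ∃ i, v ∈ B i) ∧ (∀ u v, G.Adj u v → ∃ i, u ∈ B i ∧ v ∈ B i) ∧
    (∀ v, (T.induce {i | v ∈ B i}).Connected) ∧ ∀ i, (B i).card ≤ w + 1

noncomputable def tw (G : SimpleGraph V) : ℕ := sInf {w | HasTD G w}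

def IsDyn (G : SimpleGraph V) [DecidableRel G.Adj] (r : ℕ) {k : ℕ} (φ : V → Fin k) : Prop :=
  (∀ u v, G.Adj u v → φ u ≠ φ v) ∧
    ∀ v, min r (G.degree v) ≤ ((G.neighborFinset v).image φ).card

noncomputable def chi (G : SimpleGraph V) [DecidableRel G.Adj] (r : ℕ) : ℕ :=
  sInf {k | ∃ φ : V → Fin k, IsDyn G r φ}

abbrev W (a : ℕ) := (Fin a × Fin a) ⊕ (Fin a × Fin (a * a))

def adj {a : ℕ} : W a → W a → Prop
  | .inl h, .inr x => x.1 = h.1 ∨ x.1 = h.2
  | .inr x, .inl h => x.1 = h.1 ∨ x.1 = h.2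
  | _, _ => False

def H (a : ℕ) : SimpleGraph (W a) where
  Adj := adj
  symm := ⟨fun a b h => by cases a <;> cases b <;> exact h⟩
  loopless := ⟨fun a h => by cases a <;> exact h⟩

theorem tw_le (a : ℕ) [NeZero a] : tw (H a) ≤ a * a := by
  haveI : NeZero (a * a) := ⟨Nat.mul_ne_zero (NeZero.ne a) (NeZero.ne a)⟩
  obtain ⟨T, -, hT⟩ := (SimpleGraph.connected_top (V := Fin a × Fin (a * a))).exists_isTree_le
  refine Nat.sInf_le ⟨_, inferInstance, T, fun x => insert (.inr x) (univ.image .inl), hT, ?_, ?_,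
    ?_, fun i => ?_⟩
  · rintro (h | x)
    · exact ⟨0, by simp⟩
    · exact ⟨x, by simp⟩
  · rintro (h | x) (h' | y) e
    · exact e.elim
    · exact ⟨y, by simp⟩
    · exact ⟨x, by simp⟩
    · exact e.elim
  · rintro (h | x)
    · have : {i : Fin a × Fin (a * a) | (Sum.inl h : W a) ∈ insert (.inr i) (univ.image .inl)} =
        Set.univ := by ext; simp
      rw [this]
      exact (SimpleGraph.Iso.connected_iff (T.induceUnivIso)).2 hT.connected
    · have : {i : Fin a × Fin (a * a) | (Sum.inr x : W a) ∈ insert (.inr i) (univ.image .inl)} =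
        {x} := by ext; simp [eq_comm]
      rw [this]
      exact ⟨fun u v => by rw [Subsingleton.elim u v]⟩
  · refine (card_insert_le _ _).trans (Nat.succ_le_succ (card_image_le.trans (by simp)))

theorem chi_ge (a : ℕ) [DecidableRel (H a).Adj] : a * (a * a) ≤ chi (H a) (2 * (a * a)) := by
  have hne : {k | ∃ φ : W a → Fin k, IsDyn (H a) (2 * (a * a)) φ}.Nonempty := by
    refine ⟨_, Fintype.equivFin _, fun u v e h => e.ne ((Fintype.equivFin _).injective h),
      fun v => ?_⟩
    rw [card_image_of_injective _ (Fintype.equivFin _).injective]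
    exact min_le_right _ _
  obtain ⟨φ, -, h⟩ := Nat.sInf_mem hne
  have hi : Function.Injective fun x => φ (.inr x) := by
    intro x y hxy
    have hd : (H a).degree (.inl (x.1, y.1)) ≤ 2 * (a * a) := by
      refine (card_le_card (t := (({x.1, y.1} : Finset _) ×ˢ univ).image .inr) ?_).trans
        (card_image_le.trans ?_)
      · rintro (z | z) hz
        · exact ((SimpleGraph.mem_neighborFinset _ _ _).1 hz).elim
        · have : z.1 = x.1 ∨ z.1 = y.1 := (SimpleGraph.mem_neighborFinset _ _ _).1 hz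
          exact mem_image_of_mem _ (by simpa using this)
      · rw [card_product, card_univ, Fintype.card_fin]
        exact Nat.mul_le_mul_right _ card_le_two
    have h1 := h (.inl (x.1, y.1))
    rw [min_eq_right hd] at h1
    have h2 := card_image_iff.1 (le_antisymm card_image_le h1)
    exact Sum.inr_injective (h2 (by simp [H, adj]) (by simp [H, adj]) hxy)
  simpa [chi] using Fintype.card_le_of_injective _ hi

theorem result : ¬ ∃ C : ℝ, ∀ (V : Type) [Fintype V] [DecidableEq V] (G : SimpleGraph V)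
    [DecidableRel G.Adj] (r : ℕ), 1 ≤ r → (chi G r : ℝ) ≤ C * (tw G + r) := by
  classical
  rintro ⟨C, h⟩
  obtain ⟨a, ha⟩ := exists_nat_gt (3 * |C|)
  have a0 : (0 : ℝ) < a := lt_of_le_of_lt (by positivity) ha
  haveI : NeZero a := ⟨by rintro rfl; simp at a0⟩
  have a1 : 0 < a := NeZero.pos a
  have h1 := h _ (H a) (2 * (a * a)) (Nat.succ_le_of_lt (by positivity))
  have h2 : ((a * (a * a) : ℕ) : ℝ) ≤ _ := Nat.cast_le.2 (chi_ge a)
  have h3 : (_ : ℝ) ≤ (a * a : ℕ) := Nat.cast_le.2 (tw_le a)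
  push_cast at h1 h2 h3
  have h4 := mul_le_mul (le_abs_self C) (add_le_add_left h3 (2 * (a * a))) (by positivity)
    (abs_nonneg C)
  nlinarith [mul_pos a0 a0]

end Pool.Agent.Results.MP_96dc1b_co.Hubs
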